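import Pool.Agent.helper21.OE.SpecB

/-!
# oe:CFU, the action of `diag(u, 1)` on the coefficients (after OD.CFD of helper30)

Helper file for MP_2e0e07_nt (project oe).
-/

namespace Pool.Agent.OE

open MvPolynomial Matrix

theorem CFU_act (d t : ℤ) {κ : Type} [Field κ] (π : Oz d t →+* κ) (u : Oz d t) (j a b : ℕ) :
    act π !![u, 0; 0, 1] (mon j a b : Pol κ) =
      C (π u ^ a * π (star u) ^ b) * mon j a b := by
  have h0 : act π !![u, 0; 0, 1] (X 0 : Pol κ) = C (π u) * X 0 := by
    unfold act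
    rw [aeval_X]
    simp
  have h1 : act π !![u, 0; 0, 1] (X 1 : Pol κ) = X 1 := by
    unfold act
    rw [aeval_X]
    simp
  have h2 : act π !![u, 0; 0, 1] (X 2 : Pol κ) = C (π (star u)) * X 2 := by
    unfold act
    rw [aeval_X]
    simp
  have h3 : act π !![u, 0; 0, 1] (X 3 : Pol κ) = X 3 := by
    unfold act
    rw [aeval_X]
    simp
  unfold mon
  rw [map_mul, map_mul, map_mul, map_pow, map_pow, map_pow, map_pow, h0, h1, h2, h3, mul_pow, mul_pow,
    C_mul, C_pow, C_pow]
  ring

theorem CFU (hEXQ : EXQ_stmt) : CFU_stmt := by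
  intro d t κ _ π j P hP u a b ha hb
  obtain ⟨h1, h2⟩ := hEXQ (A := κ) j
  set e : κ := π u with he
  set e' : κ := π (star u) with he'
  have e1 : act π !![u, 0; 0, 1] P = ∑ a ∈ Finset.range (j + 1), ∑ b ∈ Finset.range (j + 1),
      C (cf P j a b * (e ^ a * e' ^ b)) * mon j a b := by
    conv_lhs => rw [h1 P hP]
    rw [map_sum]
    refine Finset.sum_congr rfl fun a _ => ?_
    rw [map_sum]
    refine Finset.sum_congr rfl fun b _ => ?_
    have h3 : act π !![u, 0; 0, 1] (C (cf P j a b)) = C (cf P j a b) := (act π !![u, 0; 0, 1]).commutes _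
    rw [map_mul, h3, CFU_act, ← mul_assoc, ← C_mul]
  rw [e1, mul_comm (e ^ a * e' ^ b)]
  show coeff _ (∑ a ∈ Finset.range (j + 1), ∑ b ∈ Finset.range (j + 1),
    C (cf P j a b * (e ^ a * e' ^ b)) * mon j a b) = _
  rw [coeff_sum, Finset.sum_eq_single a]
  · rw [coeff_sum, Finset.sum_eq_single b]
    · rw [coeff_C_mul]
      have h3 := h2 a b a b ha hb ha hb
      rw [if_pos ⟨rfl, rfl⟩] at h3
      have h4 : coeff (Finsupp.equivFunOnFinite.symm ![a, j - a, b, j - b]) (mon j a b : Pol κ) = 1 := h3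
      rw [h4, mul_one]
    · intro b' hb' hne
      rw [coeff_C_mul]
      have h3 := h2 a b' a b ha (by rw [Finset.mem_range] at hb'; omega) ha hb
      rw [if_neg (fun h => hne h.2)] at h3
      have h4 : coeff (Finsupp.equivFunOnFinite.symm ![a, j - a, b, j - b]) (mon j a b' : Pol κ) = 0 := h3
      rw [h4, mul_zero]
    · intro h
      exact absurd (Finset.mem_range.2 (by omega)) h
  · intro a' ha' hne
    rw [coeff_sum]
    refine Finset.sum_eq_zero fun b' hb' => ?_
    rw [coeff_C_mul]
    have h3 := h2 a' b' a b (by rw [Finset.mem_range] at ha'; omega)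
      (by rw [Finset.mem_range] at hb'; omega) ha hb
    rw [if_neg (fun h => hne h.1)] at h3
    have h4 : coeff (Finsupp.equivFunOnFinite.symm ![a, j - a, b, j - b]) (mon j a' b' : Pol κ) = 0 := h3
    rw [h4, mul_zero]
  · intro h
    exact absurd (Finset.mem_range.2 (by omega)) h

end Pool.Agent.OE
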